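import Pool.Agent.J4H12.TB.Stm

namespace Pool.Agent.J4H12.TB

open Filter Topology Set

variable {m : Fin 3 → ℝ} {E : ℝ} {q v : Fin 3 → ℝ → ℂ}

theorem nsq (z : ℂ) : ‖z‖ ^ 2 = z.re ^ 2 + z.im ^ 2 := by
  rw [← Complex.normSq_eq_norm_sq, Complex.normSq_apply]; ring

theorem dt_self (z : ℂ) : dt z z = ‖z‖ ^ 2 := by rw [nsq]; unfold dt; ring

theorem f3_01 : (0 : Fin 3) + 1 = 1 := rfl
theorem f3_11 : (1 : Fin 3) + 1 = 2 := rfl
theorem f3_21 : (2 : Fin 3) + 1 = 0 := rfl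
theorem f3_02 : (0 : Fin 3) + 2 = 2 := rfl
theorem f3_12 : (1 : Fin 3) + 2 = 0 := rfl
theorem f3_22 : (2 : Fin 3) + 2 = 1 := rfl

theorem hasDerivAt_dt {f g : ℝ → ℂ} {f' g' : ℂ} {t : ℝ} (hf : HasDerivAt f f' t)
    (hg : HasDerivAt g g' t) :
    HasDerivAt (fun t => dt (f t) (g t)) (dt f' (g t) + dt (f t) g') t := by
  have h1 := Complex.reCLM.hasFDerivAt.comp_hasDerivAt t hf
  have h2 := Complex.imCLM.hasFDerivAt.comp_hasDerivAt t hf
  have h3 := Complex.reCLM.hasFDerivAt.comp_hasDerivAt t hg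
  have h4 := Complex.imCLM.hasFDerivAt.comp_hasDerivAt t hg
  have h := (h1.mul h3).add (h2.mul h4)
  refine h.congr_deriv ?_
  simp only [dt, Complex.reCLM_apply, Complex.imCLM_apply, Function.comp_apply]
  ring

theorem hasDerivAt_cr {f g : ℝ → ℂ} {f' g' : ℂ} {t : ℝ} (hf : HasDerivAt f f' t)
    (hg : HasDerivAt g g' t) :
    HasDerivAt (fun t => cr (f t) (g t)) (cr f' (g t) + cr (f t) g') t := by
  have h1 := Complex.reCLM.hasFDerivAt.comp_hasDerivAt t hf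
  have h2 := Complex.imCLM.hasFDerivAt.comp_hasDerivAt t hf
  have h3 := Complex.reCLM.hasFDerivAt.comp_hasDerivAt t hg
  have h4 := Complex.imCLM.hasFDerivAt.comp_hasDerivAt t hg
  have h := (h1.mul h4).sub (h2.mul h3)
  refine h.congr_deriv ?_
  simp only [cr, Complex.reCLM_apply, Complex.imCLM_apply, Function.comp_apply]
  ring

theorem hasDerivAt_nsq {f : ℝ → ℂ} {f' : ℂ} {t : ℝ} (hf : HasDerivAt f f' t) :
    HasDerivAt (fun t => ‖f t‖ ^ 2) (2 * dt (f t) f') t := by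
  have h := hasDerivAt_dt hf hf
  have e : (fun t => dt (f t) (f t)) = fun t => ‖f t‖ ^ 2 := by
    funext t; exact dt_self _
  rw [e] at h
  refine h.congr_deriv ?_
  unfold dt; ring

theorem hasDerivAt_nrm {f : ℝ → ℂ} {f' : ℂ} {t : ℝ} (hf : HasDerivAt f f' t) (h0 : f t ≠ 0) :
    HasDerivAt (fun t => ‖f t‖) (dt (f t) f' / ‖f t‖) t := by
  have h := hasDerivAt_nsq hf
  have hp : ‖f t‖ ≠ 0 := norm_ne_zero_iff.mpr h0
  have h2 := h.sqrt (pow_ne_zero 2 hp)
  have e : (fun t => √(‖f t‖ ^ 2)) = fun t => ‖f t‖ := by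
    funext t; exact Real.sqrt_sq (norm_nonneg _)
  rw [e] at h2
  refine h2.congr_deriv ?_
  rw [Real.sqrt_sq (norm_nonneg _)]
  field_simp

namespace Sol

variable (h : Sol m E q v)
include h

theorem cm_re (t : ℝ) : m 0 * (q 0 t).re + m 1 * (q 1 t).re + m 2 * (q 2 t).re = 0 := by
  have := congrArg Complex.re (h.cm t)
  simpa [Fin.sum_univ_three] using this

theorem cm_im (t : ℝ) : m 0 * (q 0 t).im + m 1 * (q 1 t).im + m 2 * (q 2 t).im = 0 := by
  have := congrArg Complex.im (h.cm t)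
  simpa [Fin.sum_univ_three] using this

theorem Dpos (a : Fin 3) (t : ℝ) : 0 < D q a t := by
  unfold D
  rw [norm_pos_iff, sub_ne_zero]
  apply h.ne
  fin_cases a <;> simp

theorem U0 (t : ℝ) : 0 < U m q t := by
  unfold U
  apply Finset.sum_pos
  · intro a _
    exact div_pos (mul_pos (h.mpos _) (h.mpos _)) (h.Dpos a t)
  · exact Finset.univ_nonempty

theorem I0 (t : ℝ) : 0 < ∑ a, m a * ‖q a t‖ ^ 2 := by
  have h0 : 0 ≤ ∑ a, m a * ‖q a t‖ ^ 2 :=
    Finset.sum_nonneg fun a _ => mul_nonneg (h.mpos a).le (sq_nonneg _)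
  rcases h0.lt_or_eq with h1 | h1
  · exact h1
  · exfalso
    have h2 := (Finset.sum_eq_zero_iff_of_nonneg
      (fun a _ => mul_nonneg (h.mpos a).le (sq_nonneg _))).mp h1.symm
    have h3 : ∀ a, q a t = 0 := by
      intro a
      have := h2 a (Finset.mem_univ a)
      rcases mul_eq_zero.mp this with h4 | h4
      · exact absurd h4 (h.mpos a).ne'
      · exact norm_eq_zero.mp (pow_eq_zero_iff (two_ne_zero) |>.mp h4)
    exact h.ne t 0 1 (by decide) (by rw [h3 0, h3 1])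

theorem rpos (t : ℝ) : 0 < rho m q t := Real.sqrt_pos.mpr (h.I0 t)

theorem rsq (t : ℝ) : rho m q t ^ 2 = ∑ a, m a * ‖q a t‖ ^ 2 := Real.sq_sqrt (h.I0 t).le

theorem sq (t : ℝ) : (∑ a, m a) * rho m q t ^ 2 =
    ∑ a : Fin 3, m (a + 1) * m (a + 2) * D q a t ^ 2 := by
  rw [h.rsq]
  simp only [Fin.sum_univ_three, D, nsq, f3_01, f3_11, f3_21, f3_02, f3_12, f3_22,
    Complex.sub_re, Complex.sub_im]
  linear_combination (m 0 * (q 0 t).re + m 1 * (q 1 t).re + m 2 * (q 2 t).re) * h.cm_re t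
    + (m 0 * (q 0 t).im + m 1 * (q 1 t).im + m 2 * (q 2 t).im) * h.cm_im t

theorem dsq (t : ℝ) : HasDerivAt (fun t => rho m q t ^ 2) (2 * J m q v t) t := by
  have e : (fun t => rho m q t ^ 2) = fun t => ∑ a, m a * ‖q a t‖ ^ 2 := by
    funext t; exact h.rsq t
  rw [e]
  have h1 : HasDerivAt (fun t => ∑ a, m a * ‖q a t‖ ^ 2)
      (∑ a, m a * (2 * dt (q a t) (v a t))) t := by
    apply HasDerivAt.fun_sum
    intro a _
    exact (hasDerivAt_nsq (h.dq a t)).const_mul (m a)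
  refine h1.congr_deriv ?_
  unfold J
  rw [Finset.mul_sum]
  exact Finset.sum_congr rfl fun a _ => by ring

theorem drho (t : ℝ) : HasDerivAt (rho m q) (J m q v t / rho m q t) t := by
  have h1 := (h.dsq t).sqrt (pow_ne_zero 2 (h.rpos t).ne')
  have e : (fun t => √(rho m q t ^ 2)) = rho m q := by
    funext t; exact Real.sqrt_sq (h.rpos t).le
  rw [e] at h1
  refine h1.congr_deriv ?_
  rw [Real.sqrt_sq (h.rpos t).le]
  have := (h.rpos t).ne'
  field_simp

theorem force (t : ℝ) : ∑ a, m a * dt (q a t) (acc m q a t) = - U m q t := by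
  have key : ∀ (x y : ℂ), x ≠ y → ∀ k : ℝ, k / ‖x - y‖ ^ 3 *
      (((x - y).re) ^ 2 + ((x - y).im) ^ 2) = k / ‖x - y‖ := by
    intro x y hxy k
    rw [← nsq]
    have : ‖x - y‖ ≠ 0 := norm_ne_zero_iff.mpr (sub_ne_zero.mpr hxy)
    field_simp
  have k0 := key (q 1 t) (q 0 t) (h.ne t 1 0 (by decide)) (m 0 * m 1)
  have k1 := key (q 2 t) (q 1 t) (h.ne t 2 1 (by decide)) (m 1 * m 2)
  have k2 := key (q 0 t) (q 2 t) (h.ne t 0 2 (by decide)) (m 2 * m 0)
  simp only [Fin.sum_univ_three, U, D, acc, dt, f3_01, f3_11, f3_21, f3_02, f3_12, f3_22,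
    Complex.add_re, Complex.add_im, Complex.re_ofReal_mul, Complex.im_ofReal_mul]
  rw [norm_sub_rev (q 2 t) (q 0 t), norm_sub_rev (q 1 t) (q 2 t), norm_sub_rev (q 0 t) (q 1 t)]
  simp only [Complex.sub_re, Complex.sub_im] at k0 k1 k2 ⊢
  linear_combination (-1) * k0 - k1 - k2

theorem dJ (t : ℝ) : HasDerivAt (J m q v) (2 * E + U m q t) t := by
  have h1 : HasDerivAt (fun t => ∑ a, m a * dt (q a t) (v a t))
      (∑ a, m a * (dt (v a t) (v a t) + dt (q a t) (acc m q a t))) t := by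
    apply HasDerivAt.fun_sum
    intro a _
    exact (hasDerivAt_dt (h.dq a t) (h.dv a t)).const_mul (m a)
  refine h1.congr_deriv ?_
  have h2 := h.force t
  have h3 := h.en t
  have h4 : ∑ a, m a * (dt (v a t) (v a t) + dt (q a t) (acc m q a t)) =
      2 * Kin m v t + ∑ a, m a * dt (q a t) (acc m q a t) := by
    unfold Kin
    simp only [mul_add, Finset.sum_add_distrib, dt_self]
    ring
  rw [h4, h2]; linarith

theorem WU (t : ℝ) : W m q v t = 2 * E + 2 * U m q t - (J m q v t / rho m q t) ^ 2 := by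
  have := h.en t
  unfold W
  linarith

/-- `W = ∑ m |η|²` -/
theorem Weta (t : ℝ) : W m q v t =
    ∑ a, m a * ‖v a t - ((J m q v t / rho m q t ^ 2 : ℝ) : ℂ) * q a t‖ ^ 2 := by
  have h1 := h.rsq t
  have h0 := (h.rpos t).ne'
  set k : ℝ := J m q v t / rho m q t ^ 2 with hk
  have e1 : ∑ a, m a * ‖v a t - (k : ℂ) * q a t‖ ^ 2 =
      2 * Kin m v t - 2 * k * J m q v t + k ^ 2 * rho m q t ^ 2 := by
    rw [h1]
    unfold Kin J
    simp only [nsq, Fin.sum_univ_three, dt, Complex.sub_re, Complex.sub_im,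
      Complex.re_ofReal_mul, Complex.im_ofReal_mul]
    ring
  rw [e1]
  unfold W
  rw [hk]
  field_simp
  ring

theorem W0 (t : ℝ) : 0 ≤ W m q v t := by
  rw [h.Weta]
  exact Finset.sum_nonneg fun a _ => mul_nonneg (h.mpos a).le (sq_nonneg _)

theorem dvv (t : ℝ) :
    HasDerivAt (vv m q v) ((W m q v t / 2 + E) / √(rho m q t)) t := by
  have hr := h.rpos t
  have hs : 0 < √(rho m q t) := Real.sqrt_pos.mpr hr
  have h1 := (h.dJ t).div ((h.drho t).sqrt hr.ne') hs.ne'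
  refine h1.congr_deriv ?_
  rw [h.WU t]
  have h2 : √(rho m q t) ^ 2 = rho m q t := Real.sq_sqrt hr.le
  set s := √(rho m q t) with hsd
  rw [← h2]
  field_simp
  ring

theorem eta_le (t : ℝ) (a : Fin 3) :
    ‖v a t - ((J m q v t / rho m q t ^ 2 : ℝ) : ℂ) * q a t‖ ≤ √(W m q v t) / √(m a) := by
  have h1 : m a * ‖v a t - ((J m q v t / rho m q t ^ 2 : ℝ) : ℂ) * q a t‖ ^ 2 ≤ W m q v t := by
    rw [h.Weta]
    exact Finset.single_le_sum
      (f := fun a => m a * ‖v a t - ((J m q v t / rho m q t ^ 2 : ℝ) : ℂ) * q a t‖ ^ 2)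
      (fun a _ => mul_nonneg (h.mpos a).le (sq_nonneg _)) (Finset.mem_univ a)
  rw [le_div_iff₀ (Real.sqrt_pos.mpr (h.mpos a))]
  apply Real.le_sqrt_of_sq_le
  rw [mul_pow, Real.sq_sqrt (h.mpos a).le]
  linarith

end Sol

end Pool.Agent.J4H12.TB
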