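import Pool.Agent.J4H12.TB.Bas1

namespace Pool.Agent.J4H12.TB

open Filter Topology Set

variable {m : Fin 3 → ℝ} {E : ℝ} {q v : Fin 3 → ℝ → ℂ}

theorem abs_dt_le (z w : ℂ) : |dt z w| ≤ ‖z‖ * ‖w‖ := by
  apply abs_le_of_sq_le_sq _ (by positivity)
  rw [mul_pow, nsq, nsq]
  unfold dt
  nlinarith [sq_nonneg (z.re * w.im - z.im * w.re)]

theorem abs_cr_le (z w : ℂ) : |cr z w| ≤ ‖z‖ * ‖w‖ := by
  apply abs_le_of_sq_le_sq _ (by positivity)
  rw [mul_pow, nsq, nsq]
  unfold cr
  nlinarith [sq_nonneg (z.re * w.re + z.im * w.im)]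

/-- `η` -/
noncomputable def eta (m : Fin 3 → ℝ) (q v : Fin 3 → ℝ → ℂ) (a : Fin 3) (t : ℝ) : ℂ :=
  v a t - ((J m q v t / rho m q t ^ 2 : ℝ) : ℂ) * q a t

theorem idx : ∀ a b c : Fin 3, ¬a = b → ¬c = a → ¬c = b →
    (c + 1 = a ∧ c + 2 = b) ∨ (c + 1 = b ∧ c + 2 = a) := by decide

theorem idx2 : ∀ a b : Fin 3, ¬a = b → ∃ c, (a = c + 1 ∧ b = c + 2) ∨ (a = c + 2 ∧ b = c + 1) := by
  decide

theorem exists_const (m : Fin 3 → ℝ) (hm : ∀ a, 0 < m a) : ∃ C0 S Q : ℝ, 0 < C0 ∧ 0 < S ∧ 0 < Q ∧
    ∀ (E : ℝ) (q v : Fin 3 → ℝ → ℂ), Sol m E q v →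
      (∀ a t, D q a t ≤ C0 * rho m q t) ∧
      (∀ a b t, ‖eta m q v a t - eta m q v b t‖ ≤ S * √(W m q v t)) ∧
      (∀ C, Q ≤ C → ∀ t a b, D q a t ≤ rho m q t / C → D q b t ≤ rho m q t / C → a = b) := by
  obtain ⟨mm, h0, h1⟩ : ∃ mm : ℝ, 0 < mm ∧ ∀ a, mm ≤ m a := by
    refine ⟨min (m 0) (min (m 1) (m 2)), ?_, ?_⟩
    · exact lt_min (hm 0) (lt_min (hm 1) (hm 2))
    · intro a
      fin_cases a
      · exact min_le_left _ _
      · exact (min_le_right _ _).trans (min_le_left _ _)
      · exact (min_le_right _ _).trans (min_le_right _ _)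
  have hM : 0 < ∑ a, m a := Finset.sum_pos (fun a _ => hm a) Finset.univ_nonempty
  have hle : ∀ a, m a ≤ ∑ a, m a := fun a =>
    Finset.single_le_sum (f := m) (fun a _ => (hm a).le) (Finset.mem_univ a)
  refine ⟨√(∑ a, m a) / mm, 2 / √mm, 3 * (∑ a, m a + 1), by positivity, by positivity,
    by positivity, fun E q v h => ⟨?_, ?_, ?_⟩⟩
  · intro a t
    have hr := h.rpos t
    rw [div_mul_eq_mul_div, le_div_iff₀ h0]
    have h2 := h.sq t
    have h3 : m (a + 1) * m (a + 2) * D q a t ^ 2 ≤ (∑ a, m a) * rho m q t ^ 2 := by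
      rw [h2]
      exact Finset.single_le_sum (f := fun a => m (a + 1) * m (a + 2) * D q a t ^ 2)
        (fun a _ => by have := hm (a+1); have := hm (a+2); positivity) (Finset.mem_univ a)
    have h4 : mm * mm ≤ m (a + 1) * m (a + 2) :=
      mul_le_mul (h1 _) (h1 _) h0.le (hm _).le
    apply le_of_sq_le_sq _ (by positivity)
    rw [mul_pow, mul_pow, Real.sq_sqrt hM.le]
    calc D q a t ^ 2 * mm ^ 2 = (mm * mm) * D q a t ^ 2 := by ring
      _ ≤ m (a + 1) * m (a + 2) * D q a t ^ 2 := by gcongr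
      _ ≤ _ := h3
  · intro a b t
    have e1 : ∀ a, ‖eta m q v a t‖ ≤ √(W m q v t) / √mm := by
      intro a
      refine (h.eta_le t a).trans ?_
      gcongr
      exact h1 a
    calc ‖eta m q v a t - eta m q v b t‖ ≤ ‖eta m q v a t‖ + ‖eta m q v b t‖ := norm_sub_le _ _
      _ ≤ √(W m q v t) / √mm + √(W m q v t) / √mm := add_le_add (e1 a) (e1 b)
      _ = 2 / √mm * √(W m q v t) := by ring
  · intro C hC t a b ha hb
    by_contra hab
    have hr := h.rpos t
    set M := ∑ a, m a with hMd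
    have hCp : 0 < C := by nlinarith
    have tri : ∀ c, D q c t ≤ D q (c + 1) t + D q (c + 2) t := by
      intro c
      unfold D
      have e : q (c + 2) t - q (c + 1) t =
        -((q (c + 1 + 2) t - q (c + 1 + 1) t) + (q (c + 2 + 2) t - q (c + 2 + 1) t)) := by
        have g1 : c + 1 + 2 = c := by revert c; decide
        have g2 : c + 1 + 1 = c + 2 := by revert c; decide
        have g3 : c + 2 + 2 = c + 1 := by revert c; decide
        have g4 : c + 2 + 1 = c := by revert c; decide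
        rw [g1, g2, g3, g4]; ring
      rw [e, norm_neg]
      exact norm_add_le _ _
    have all : ∀ c, D q c t ≤ 2 * (rho m q t / C) := by
      intro c
      have hd := tri c
      have hp : 0 < rho m q t / C := by positivity
      by_cases h1 : c = a
      · rw [h1]; linarith
      · by_cases h2 : c = b
        · rw [h2]; linarith
        · have h3 : (c + 1 = a ∧ c + 2 = b) ∨ (c + 1 = b ∧ c + 2 = a) := idx a b c hab h1 h2
          rcases h3 with ⟨h4, h5⟩ | ⟨h4, h5⟩ <;> rw [h4, h5] at hd <;> linarith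
    have hs := h.sq t
    have hb : ∀ c, m (c + 1) * m (c + 2) * D q c t ^ 2 ≤ M * m (c + 2) * (2 * (rho m q t / C)) ^ 2 := by
      intro c
      have := all c
      have := (h.Dpos c t).le
      have := hm (c + 1)
      have := hm (c + 2)
      have := hle (c + 1)
      gcongr
    have hb2 : M * rho m q t ^ 2 ≤ M * M * (2 * (rho m q t / C)) ^ 2 := by
      rw [hs]
      calc _ ≤ ∑ c : Fin 3, M * m (c + 2) * (2 * (rho m q t / C)) ^ 2 :=
            Finset.sum_le_sum fun c _ => hb c
        _ = M * M * (2 * (rho m q t / C)) ^ 2 := by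
          rw [Fin.sum_univ_three, hMd, Fin.sum_univ_three]
          simp only [f3_02, f3_12, f3_22]
          ring
    have h5 : rho m q t ^ 2 ≤ M * (4 * rho m q t ^ 2 / C ^ 2) := by
      have : M * rho m q t ^ 2 ≤ M * (M * (4 * rho m q t ^ 2 / C ^ 2)) := by
        calc M * rho m q t ^ 2 ≤ _ := hb2
          _ = _ := by rw [mul_pow, div_pow]; ring
      exact le_of_mul_le_mul_left this hM
    rw [← mul_div_assoc, le_div_iff₀ (by positivity)] at h5
    have h6 : C ^ 2 ≤ 4 * M := by
      have hr2 : 0 < rho m q t ^ 2 := by positivity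
      have : rho m q t ^ 2 * C ^ 2 ≤ rho m q t ^ 2 * (4 * M) := by linarith
      exact le_of_mul_le_mul_left this hr2
    nlinarith

theorem t_BAS : S_BAS := by
  intro m hm
  obtain ⟨C0, S, Q, hC0, hS, hQ, H⟩ := exists_const m hm
  refine ⟨1 + C0 + S + 2 * C0 * S + Q, by nlinarith [mul_pos hC0 hS], fun E q v h => ?_⟩
  obtain ⟨hD, hE, h1⟩ := H E q v h
  set C := 1 + C0 + S + 2 * C0 * S + Q with hC
  have hCS : S ≤ C := by rw [hC]; nlinarith [mul_pos hC0 hS]
  have hCC : 2 * C0 * S ≤ C := by rw [hC]; nlinarith [mul_pos hC0 hS]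
  have hCD : C0 ≤ C := by rw [hC]; nlinarith [mul_pos hC0 hS]
  have hCQ : Q ≤ C := by rw [hC]; nlinarith [mul_pos hC0 hS]
  -- the derivative of a difference
  have hdiff : ∀ a b t, v a t - v b t =
      (eta m q v a t - eta m q v b t) + ((J m q v t / rho m q t ^ 2 : ℝ) : ℂ) * (q a t - q b t) := by
    intro a b t; unfold eta; ring
  have hA : ∀ a b t, ‖q a t - q b t‖ ≤ C0 * rho m q t := by
    intro a b t
    by_cases hab : a = b
    · rw [hab, sub_self, norm_zero]
      have := h.rpos t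
      positivity
    · obtain ⟨c, ⟨h2, h3⟩ | ⟨h2, h3⟩⟩ := idx2 a b hab
      · have := hD c t
        unfold D at this
        rw [norm_sub_rev, h2, h3]; exact this
      · have := hD c t
        unfold D at this
        rw [h2, h3]; exact this
  refine ⟨h.rpos, h.Dpos, h.U0, h.W0, h.WU, h.sq, fun a t => (hD a t).trans ?_, h1 C hCQ,
    h.drho, h.dsq, h.dJ, h.dvv, ?_, ?_, ?_⟩
  · exact mul_le_mul_of_nonneg_right hCD (h.rpos t).le
  · intro a t
    have hr := h.rpos t
    have hDp := h.Dpos a t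
    have hne : q (a + 2) t - q (a + 1) t ≠ 0 := by
      have : 0 < ‖q (a + 2) t - q (a + 1) t‖ := hDp
      exact norm_pos_iff.mp this
    have hd := hasDerivAt_nrm ((h.dq (a + 2) t).sub (h.dq (a + 1) t)) hne
    have hd2 := hd.div (h.drho t) hr.ne'
    refine ⟨dt (q (a + 2) t - q (a + 1) t) (eta m q v (a + 2) t - eta m q v (a + 1) t) /
      (‖q (a + 2) t - q (a + 1) t‖ * rho m q t), ?_, ?_⟩
    · refine hd2.congr_deriv ?_
      simp only [Pi.sub_apply]
      rw [hdiff]
      have e1 : ∀ (A η : ℂ) (k : ℝ), dt A (η + (k : ℂ) * A) = dt A η + k * ‖A‖ ^ 2 := by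
        intro A η k
        rw [nsq]
        unfold dt
        simp only [Complex.add_re, Complex.add_im, Complex.re_ofReal_mul, Complex.im_ofReal_mul]
        ring
      rw [e1]
      have hn : ‖q (a + 2) t - q (a + 1) t‖ ≠ 0 := (norm_pos_iff.mpr hne).ne'
      field_simp
      ring
    · have hn : 0 < ‖q (a + 2) t - q (a + 1) t‖ := norm_pos_iff.mpr hne
      rw [abs_div, abs_of_pos (mul_pos hn hr)]
      have h2 := abs_dt_le (q (a + 2) t - q (a + 1) t) (eta m q v (a + 2) t - eta m q v (a + 1) t)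
      have h3 := hE (a + 2) (a + 1) t
      rw [← mul_div_assoc, div_le_div_iff₀ (mul_pos hn hr) hr]
      have h4 : ‖q (a + 2) t - q (a + 1) t‖ * ‖eta m q v (a + 2) t - eta m q v (a + 1) t‖ ≤
        ‖q (a + 2) t - q (a + 1) t‖ * (C * √(W m q v t)) := by
        apply mul_le_mul_of_nonneg_left _ hn.le
        exact h3.trans (mul_le_mul_of_nonneg_right hCS (Real.sqrt_nonneg _))
      calc _ ≤ ‖q (a + 2) t - q (a + 1) t‖ * (C * √(W m q v t)) * rho m q t :=
            mul_le_mul_of_nonneg_right (h2.trans h4) hr.le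
        _ = _ := by ring
  · intro a t
    have hr := h.rpos t
    have hd := hasDerivAt_dt ((h.dq (a + 1) t).sub (h.dq a t)) ((h.dq (a + 2) t).sub (h.dq a t))
    have hd2 := hd.div (h.dsq t) (pow_ne_zero 2 hr.ne')
    refine ⟨(dt (eta m q v (a + 1) t - eta m q v a t) (q (a + 2) t - q a t) +
      dt (q (a + 1) t - q a t) (eta m q v (a + 2) t - eta m q v a t)) / rho m q t ^ 2, ?_, ?_⟩
    · refine hd2.congr_deriv ?_
      simp only [Pi.sub_apply]
      rw [hdiff, hdiff]
      have e1 : ∀ (A B η θ : ℂ) (k : ℝ), dt (η + (k : ℂ) * A) B + dt A (θ + (k : ℂ) * B) =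
          dt η B + dt A θ + 2 * k * dt A B := by
        intro A B η θ k
        unfold dt
        simp only [Complex.add_re, Complex.add_im, Complex.re_ofReal_mul, Complex.im_ofReal_mul]
        ring
      rw [e1]
      field_simp
      ring
    · rw [abs_div, abs_of_pos (by positivity : (0:ℝ) < rho m q t ^ 2), ← mul_div_assoc,
        div_le_div_iff₀ (by positivity) hr]
      have h2 := abs_dt_le (eta m q v (a + 1) t - eta m q v a t) (q (a + 2) t - q a t)
      have h3 := abs_dt_le (q (a + 1) t - q a t) (eta m q v (a + 2) t - eta m q v a t)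
      have h4 := hE (a + 1) a t
      have h5 := hE (a + 2) a t
      have h6 := hA (a + 1) a t
      have h7 := hA (a + 2) a t
      have hs := Real.sqrt_nonneg (W m q v t)
      have h8 : ‖eta m q v (a + 1) t - eta m q v a t‖ * ‖q (a + 2) t - q a t‖ ≤
        S * √(W m q v t) * (C0 * rho m q t) := by gcongr
      have h9 : ‖q (a + 1) t - q a t‖ * ‖eta m q v (a + 2) t - eta m q v a t‖ ≤
        (C0 * rho m q t) * (S * √(W m q v t)) := by gcongr
      have h10 : |dt (eta m q v (a + 1) t - eta m q v a t) (q (a + 2) t - q a t) +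
        dt (q (a + 1) t - q a t) (eta m q v (a + 2) t - eta m q v a t)| ≤
        2 * C0 * S * √(W m q v t) * rho m q t := by
        refine (abs_add_le _ _).trans ?_
        calc _ ≤ S * √(W m q v t) * (C0 * rho m q t) + (C0 * rho m q t) * (S * √(W m q v t)) :=
              add_le_add (h2.trans h8) (h3.trans h9)
          _ = _ := by ring
      calc _ ≤ 2 * C0 * S * √(W m q v t) * rho m q t * rho m q t :=
            mul_le_mul_of_nonneg_right h10 hr.le
        _ ≤ C * √(W m q v t) * rho m q t * rho m q t := by gcongr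
        _ = _ := by ring
  · intro t
    have hr := h.rpos t
    have hd := hasDerivAt_cr ((h.dq 1 t).sub (h.dq 0 t)) ((h.dq 2 t).sub (h.dq 0 t))
    have hd2 := hd.div (h.dsq t) (pow_ne_zero 2 hr.ne')
    refine ⟨(cr (eta m q v 1 t - eta m q v 0 t) (q 2 t - q 0 t) +
      cr (q 1 t - q 0 t) (eta m q v 2 t - eta m q v 0 t)) / rho m q t ^ 2, ?_, ?_⟩
    · refine hd2.congr_deriv ?_
      simp only [Pi.sub_apply]
      rw [hdiff, hdiff]
      have e1 : ∀ (A B η θ : ℂ) (k : ℝ), cr (η + (k : ℂ) * A) B + cr A (θ + (k : ℂ) * B) =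
          cr η B + cr A θ + 2 * k * cr A B := by
        intro A B η θ k
        unfold cr
        simp only [Complex.add_re, Complex.add_im, Complex.re_ofReal_mul, Complex.im_ofReal_mul]
        ring
      rw [e1]
      field_simp
      ring
    · rw [abs_div, abs_of_pos (by positivity : (0:ℝ) < rho m q t ^ 2), ← mul_div_assoc,
        div_le_div_iff₀ (by positivity) hr]
      have h2 := abs_cr_le (eta m q v 1 t - eta m q v 0 t) (q 2 t - q 0 t)
      have h3 := abs_cr_le (q 1 t - q 0 t) (eta m q v 2 t - eta m q v 0 t)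
      have h4 := hE 1 0 t
      have h5 := hE 2 0 t
      have h6 := hA 1 0 t
      have h7 := hA 2 0 t
      have hs := Real.sqrt_nonneg (W m q v t)
      have h8 : ‖eta m q v 1 t - eta m q v 0 t‖ * ‖q 2 t - q 0 t‖ ≤
        S * √(W m q v t) * (C0 * rho m q t) := by gcongr
      have h9 : ‖q 1 t - q 0 t‖ * ‖eta m q v 2 t - eta m q v 0 t‖ ≤
        (C0 * rho m q t) * (S * √(W m q v t)) := by gcongr
      have h10 : |cr (eta m q v 1 t - eta m q v 0 t) (q 2 t - q 0 t) +
        cr (q 1 t - q 0 t) (eta m q v 2 t - eta m q v 0 t)| ≤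
        2 * C0 * S * √(W m q v t) * rho m q t := by
        refine (abs_add_le _ _).trans ?_
        calc _ ≤ S * √(W m q v t) * (C0 * rho m q t) + (C0 * rho m q t) * (S * √(W m q v t)) :=
              add_le_add (h2.trans h8) (h3.trans h9)
          _ = _ := by ring
      calc _ ≤ 2 * C0 * S * √(W m q v t) * rho m q t * rho m q t :=
            mul_le_mul_of_nonneg_right h10 hr.le
        _ ≤ C * √(W m q v t) * rho m q t * rho m q t := by gcongr
        _ = _ := by ring

end Pool.Agent.J4H12.TB
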