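import Pool.Agent.J4H12.TB.Stm

namespace Pool.Agent.J4H12.TB

open Filter Topology Set

/-- mass scaling -/
theorem IsHyperbolic.scale {m : Fin 3 → ℝ} {q : Fin 3 → ℝ → ℂ} (h : IsHyperbolic m q) {c : ℝ}
    (hc : 0 < c) : IsHyperbolic (fun a => c * m a) (fun a t => q a (√c * t)) := by
  have hk : 0 < √c := Real.sqrt_pos.mpr hc
  have hk2 : √c ^ 2 = c := Real.sq_sqrt hc.le
  have hder : ∀ a t, HasDerivAt (fun t => q a (√c * t)) ((√c : ℂ) * deriv (q a) (√c * t)) t := by
    intro a t
    have h1 := ((h.differentiable a) (√c * t)).hasDerivAt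
    have h2 : HasDerivAt (fun t : ℝ => √c * t) (√c) t := by
      simpa using (hasDerivAt_id t).const_mul (√c)
    have h3 := h1.scomp t h2
    simpa [Function.comp_def, Complex.real_smul] using h3
  have hd : ∀ a, deriv (fun t => q a (√c * t)) = fun t => (√c : ℂ) * deriv (q a) (√c * t) := by
    intro a; funext t; exact (hder a t).deriv
  have hn : ∀ t, (massNorm (fun a => c * m a) fun b => q b (√c * t)) =
      √c * massNorm m (fun b => q b (√c * t)) := by
    intro t
    unfold massNorm
    rw [← Real.sqrt_mul hc.le]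
    congr 1
    rw [Finset.mul_sum]
    exact Finset.sum_congr rfl fun a _ => by ring
  have hlim : ∀ (l l' : Filter ℝ), Tendsto (fun t => √c * t) l' l →
      (∃ s : Fin 3 → ℂ, Function.Injective s ∧
        ∀ a, Tendsto (fun t => q a t / (massNorm m fun b => q b t : ℝ)) l (𝓝 (s a))) →
      (∃ s : Fin 3 → ℂ, Function.Injective s ∧
        ∀ a, Tendsto (fun t => q a (√c * t) /
          (massNorm (fun a => c * m a) fun b => q b (√c * t) : ℝ)) l' (𝓝 (s a))) := by
    rintro l l' ht ⟨s, hs, H⟩
    refine ⟨fun a => s a / (√c : ℂ), ?_, fun a => ?_⟩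
    · intro a b hab
      apply hs
      have h0 : (√c : ℂ) ≠ 0 := by exact_mod_cast hk.ne'
      have hab' : s a / (√c : ℂ) = s b / (√c : ℂ) := hab
      field_simp at hab'
      exact hab'
    · have h1 := ((H a).comp ht).div_const (√c : ℂ)
      refine h1.congr fun t => ?_
      rw [hn]
      simp only [Function.comp_apply, Complex.ofReal_mul]
      rw [div_div, mul_comm (√c : ℂ)]
  refine ⟨fun t => h.collisionFree (√c * t), ?_, fun a t => (hder a t).differentiableAt, ?_, ?_,
    hlim atTop atTop (tendsto_id.const_mul_atTop hk) h.future,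
    hlim atBot atBot (tendsto_id.const_mul_atBot hk) h.past⟩
  · intro t
    have := h.centre (√c * t)
    calc ∑ a, ((c * m a : ℝ) : ℂ) * q a (√c * t) = (c : ℂ) * ∑ a, (m a : ℂ) * q a (√c * t) := by
          rw [Finset.mul_sum]
          exact Finset.sum_congr rfl fun a _ => by push_cast; ring
      _ = 0 := by rw [this, mul_zero]
  · intro a t
    rw [hd]
    have h1 := h.newton a (√c * t)
    have h2 : HasDerivAt (fun t : ℝ => √c * t) (√c) t := by
      simpa using (hasDerivAt_id t).const_mul (√c)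
    have h3 := (h1.scomp t h2).const_mul (√c : ℂ)
    simp only [Function.comp_def, Complex.real_smul] at h3
    refine h3.congr_deriv ?_
    rw [← mul_assoc, ← Complex.ofReal_mul, ← pow_two, hk2, Finset.mul_sum]
    refine Finset.sum_congr rfl fun b _ => ?_
    push_cast
    ring
  · obtain ⟨E, hE, H⟩ := h.energyPos
    refine ⟨c ^ 2 * E, by positivity, fun t => ?_⟩
    rw [← H (√c * t)]
    unfold energy
    simp only [hd]
    rw [mul_sub, Finset.mul_sum, mul_div_assoc', Finset.mul_sum]
    congr 1
    · congr 1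
      refine Finset.sum_congr rfl fun a _ => ?_
      rw [norm_mul, mul_pow, Complex.norm_real, Real.norm_of_nonneg hk.le, hk2]
      ring
    · refine Finset.sum_congr rfl fun a _ => ?_
      ring

theorem scale_seq {q : Fin 3 → ℝ → ℂ} {w : List (Fin 3)} {k : ℝ} (hk : 0 < k)
    (h : IsReducedEclipseSequence q w) :
    IsReducedEclipseSequence (fun a t => q a (k * t)) w := by
  obtain ⟨w0, ⟨τ, h1, h2, h3⟩, h4, h5⟩ := h
  refine ⟨w0, ⟨τ.map (fun t => k⁻¹ * t), ?_, ?_, ?_⟩, h4, h5⟩
  · rw [List.pairwise_map]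
    exact h1.imp fun hab => mul_lt_mul_of_pos_left hab (inv_pos.mpr hk)
  · intro t a he
    rw [List.mem_map]
    refine ⟨k * t, h2 (k * t) a he, ?_⟩
    rw [← mul_assoc, inv_mul_cancel₀ hk.ne', one_mul]
  · rw [List.forall₂_map_right_iff]
    refine h3.imp fun a t he => ?_
    unfold Ecl at he ⊢
    have : k * (k⁻¹ * t) = t := by rw [← mul_assoc, mul_inv_cancel₀ hk.ne', one_mul]
    simpa only [this] using he

/-- the alternating word `0 1 0 1 …` of length `n` -/
def altWord : ℕ → Fin 3 → Fin 3 → List (Fin 3)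
  | 0, _, _ => []
  | n + 1, a, b => a :: altWord n b a

theorem altWord_length (n : ℕ) (a b : Fin 3) : (altWord n a b).length = n := by
  induction n generalizing a b with
  | zero => rfl
  | succ n ih => simp [altWord, ih]

theorem altWord_reduced (n : ℕ) (a b : Fin 3) (hab : a ≠ b) : IsReduced (altWord n a b) := by
  intro u v c h
  induction u generalizing n a b with
  | nil =>
    rcases n with _ | _ | n
    · simp [altWord] at h
    · simp [altWord] at h
    · simp only [altWord, List.nil_append, List.cons.injEq] at h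
      exact hab (h.1.trans h.2.1.symm)
  | cons x u ih =>
    rcases n with _ | n
    · simp [altWord] at h
    · simp only [altWord, List.cons_append, List.cons.injEq] at h
      exact ih n b a hab.symm h.2

theorem final (hM : S_MAIN) (hW : S_WRD) (hH : S_HYP) (m : Fin 3 → ℝ) (hm : ∀ a, 0 < m a) :
    (∃ N : ℕ, ∀ c : ℝ, 0 < c → ∀ q : Fin 3 → ℝ → ℂ, IsHyperbolic (fun a => c * m a) q →
      ∀ w, IsReducedEclipseSequence q w → w.length ≤ N) ∧
    (∃ w : List (Fin 3), IsReduced w ∧
      ∀ q : Fin 3 → ℝ → ℂ, IsHyperbolic m q → ¬ IsReducedEclipseSequence q w) := by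
  obtain ⟨N, HN⟩ := hM m hm
  have key : ∀ q : Fin 3 → ℝ → ℂ, IsHyperbolic m q →
      ∀ w, IsReducedEclipseSequence q w → w.length ≤ N + 1 := by
    intro q hq w hw
    by_cases h0 : w = []
    · rw [h0]; simp
    · obtain ⟨E, hS, hU⟩ := hH m q hm hq
      obtain ⟨τ, lab, hA⟩ := hW q w hw h0
      have := HN E q _ hS hU _ τ lab hA
      omega
  refine ⟨⟨N + 1, fun c hc q hq w hw => ?_⟩, ?_⟩
  · have hc' : 0 < c⁻¹ := inv_pos.mpr hc
    have h1 := hq.scale hc'
    have e : (fun a => c⁻¹ * (c * m a)) = m := by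
      funext a
      rw [← mul_assoc, inv_mul_cancel₀ hc.ne', one_mul]
    rw [e] at h1
    exact key _ h1 w (scale_seq (Real.sqrt_pos.mpr hc') hw)
  · refine ⟨altWord (N + 2) 0 1, altWord_reduced _ _ _ (by decide), fun q hq hw => ?_⟩
    have := key q hq _ hw
    rw [altWord_length] at this
    omega

end Pool.Agent.J4H12.TB
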