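import Pool.Agent.J4H12.TB.Stm

/-!
# Project TB (MP_877ce7_an): jobs

Theorem of job X: `theorem t_X (hypotheses) : S_X` in your own namespace, e.g. module
`Pool.Agent.J4H??.TB.X`; the hypotheses allowed are listed with the job and are statements of
`Stm.lean` (other jobs).  `m a > 0` always.  Write `e = eps`, `'` = time derivative.

Notation: `ρρ' = J`, `ρ'^2 = (J/ρ)^2`, `W = 2K - ρ'^2 = ∑ m |η_a|^2` with `η_a = v_a - (J/ρ²) q_a`.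

* BAS : S_BAS (can be split).  `ρ² = ∑ m|q|²`, `(ρ²)' = 2J`, `J' = 2K + ∑ m q·acc = 2K - U = 2E + U`
  (en: `K - U = E`), `(J/√ρ)' = (2E+U)/√ρ - J²/(2 ρ^(5/2)) = (W/2+E)/√ρ`.  `sq` is Lagrange's
  identity (uses `cm`).  `W = ∑ m|η_a|² ≥ 0` (so `|η_a| ≤ √(W/m_a)`); the derivative of
  `(q_b - q_a)/ρ` is `(η_b - η_a)/ρ`, whence dD, dpsi, dchi with `|d| ≤ C √W/ρ`.  `one`: two sides
  `≤ ρ/C` make the third `≤ 2ρ/C`, against `sq` for `C` large.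
* SHT : S_SHT, REV : S_REV, SCL : S_SCL, CYC : S_CYC (invariance; one worker).
* JAC (hB : S_BAS) : S_JAC.  `r = q1 - q0`, `X = q2 - (m0 q0 + m1 q1)/(m0+m1) = ((m0+m1+m2)/(m0+m1)) q2`,
  `M = m0+m1`, `μ = m0 m1/M`, `ν = M m2/(M+m2)`, `F = m2 ((q2-q1)/|q2-q1|³ - (q2-q0)/|q2-q0|³)`,
  `G = ((M+m2)/M) acc_2`, `P = m2 (m0/|q2-q0| + m1/|q2-q1|)`.  `q2 - q1 = X - (m0/M) r`,
  `q2 - q0 = X + (m1/M) r`.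
* ESC : S_ESC.  Suppose `e(t0) R0 < -L`, `R0 = |X t0|`, WLOG (reverse time: r(-t), -w(-t), X(-t),
  -Y(-t), F(-t), G(-t), P(-t)) `X·Y ≥ 0` at `t0`.  First-failure-time argument for the conditions
  `e < -L/(2 R0)`, `|X| > R0/2` on `[t0, T]`: then `|r| ≤ 2 M R0/L ≤ |X|/2`, `ν|Y|²/2 = E - μe + P ≥ μL/(2R0)`,
  `(|X|²)'' = 2|Y|² + 2X·G ≥ 2μL/(νR0) - 4C/R0 ≥ 2k²`, `2k² = μL/(νR0)`, so `|X|² ≥ R0² + k²(t-t0)²`;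
  `|e'| = |w·F| ≤ √(2M/|r|) C |r|/|X|³ ≤ 2CM √(R0/L)/|X|³`, and `∫ (R0²+k²s²)^(-3/2) ds ≤ 1/(k R0²)`
  (antiderivative `s/(R0² √(R0²+k²s²))`), total `≤ C'/(L R0) ≤ L/(4 R0)` for `L` large.
  So `|r| ≤ 2MR0/L` for all `t ≥ t0`: contradiction with unboundedness.
* PAIR (hB : S_BAS) (hC : S_CYC) (hJ : S_JAC) (hE : S_ESC) : S_PAIR.  Apply JAC and ESC to the
  cyclically renumbered solution `q'(i) = q(i + a + 1)`  (`q'(2) = q(a)`, `q'(0) = q(a+1)`,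
  `q'(1) = q(a+2)`); `κ` small.  ecl1/ecl2: `X` is a positive multiple of `q_a` (so of
  `q_a - centre of mass of the pair`), and the centre of mass of the pair is inside the pair.
* SPD (hB : S_BAS) (hP : S_PAIR) : S_SPD.  If all sides are `≥ κρ`: `ρ'^2 ≤ 2K = 2E + 2U`.
  Otherwise a pair is close: `e ≥ -L/|X|`, `μe ≤ E + P`, so `|w|² = 2e + 2M/|r| ≤ C(E + 1/|r|)`
  (`1/|X| ≤ 1/|r|`), `ν|Y|²/2 = E - μe + P ≤ E + C/|X|`, and `J = μ r·w + ν X·Y`.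
* RA : S_RA.  `psi q a s < 0` if `Ecl q a s`, `psi q a t > 0` if `Ecl q b t`, `b ≠ a`; IVT.
* PSI (hB : S_BAS) : S_PSI.  `A = q1-q0`, `B = q2-q0`, `ψ = A·B`, `Hf = ψ' - 2(J/ρ²)ψ = η_A·B + A·η_B`,
  `η_A = A' - (J/ρ²)A`.  `Hf' = F_ψ + 2 η_A·η_B - 2ψ[(2E+U)/ρ² - J²/ρ⁴]`, where `F_ψ = A''·B + A·B'' =
  -ψ[(m0+m1)/|A|³ + (m0+m2)/|B|³ + (m1+m2)/|A-B|³] + m2|B|²(1/|A-B|³ - 1/|B|³) + m1|A|²(1/|A-B|³ - 1/|A|³)`;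
  `|A-B|² = |A|²+|B|²-2ψ`, so for `κ` small `F_ψ ≤ -c/ρ`; the last term is `≤ κC/ρ` (`Eρ ≤ 1`, Spd,
  sides `≥ δρ`), and `2η_A·η_B ≤ C W`.
* STN (hB : S_BAS) (hT : S_SHT) (hS : S_SCL) (hC : S_CYC) (hP : S_PSI) : S_STN.  Renumber: `a = 0`.
  Shift and scale: `s = 0`, `ρ(0) = 1` (`k² = ρ(s)`), then `E ≤ 1`.  `vv² ≤ V(Eρ+1) ≤ 2V`,
  `(ρ^(3/2))' = (3/2) vv`, so `ρ^(3/2) ∈ [1/2,3/2]` on `[0,θ]`.  `√W/ρ ≤ ρ^(-3/2)/2 + vv'` (`vv' = (W/2+E)/√ρ`),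
  so on `[0,min(t,θ)]` psi/ρ², D/ρ, chi/ρ² move by `≤ C(θ + c)` if `vv t - vv 0 < c`.  At `0`:
  `|chi| = |A||B| ≥ 4δ²`; so `t > θ`.  On `[0,θ]` PSI (with `δ`) applies; with `ω = x(θ-x)`:
  `(ω Hf)' ≤ θ|Hf| + ω(-c1 + C W)`, `|Hf| ≤ κ2 + C W/κ2`, `W ≤ 2√ρ vv'`; integrate over `[0,θ]`
  (i.e. monotonicity of `ω Hf + c1(..) - C' vv`): `c1 θ³/24 ≤ C' (vv θ - vv 0)`.
* CRN (hB : S_BAS) : S_CRN.  While `D_p ≤ 4δρ`: `W = 2E + 2U - ρ'^2 ≥ 2 m m/(4δρ) - 2V/ρ ≥ 1/ρ`, so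
  `|(D_p/ρ)'| ≤ C√W/ρ ≤ C W/√ρ ≤ 2C vv'`; take the first/last time with `D_p = 4δρ`.
* CSN (hB : S_BAS) (hR : S_RA) (hN : S_CRN) (hS : S_STN) : S_CSN.  Right angle at `x`; if all sides
  are `≥ 2δρ` at `x`: STN on `[x,t]`; otherwise a side is `< 2δρ`: either it stays `≤ 4δρ` on `[s,t]`,
  or CRN.  `vv` is monotone.
* EXU : S_EXU.  `z = r·w`, `ℓ = cr r w`.  For `κ` small: `|w|² = 2e+2M/|r| ≥ M/|r|`,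
  `z' = |w|²/2 + e + r·F ≥ |w|²/4 ≥ M/(4|r|)`, `|ℓ'| = |cr r F| ≤ C|r|²/|X|³`, `(r/|r|)'` has norm
  `|ℓ|/|r|²`.  Let `p = √(ℓ²+ι²)`, `n = √(z²+p²)`, `ι > 0` so small that `ι² ≤ |r|²|w|²` on `[a,b]`;
  `Φ = (z-p)/n` where `z ≥ 0`: `∂_zΦ = p(p+z)/n³ ≥ p/n²`, `|∂_pΦ| ≤ 2/n`, so
  `Φ' ≥ |ℓ|/(8|r|²) - C'|r|^(3/2)/|X|³` (`n ≥ |r||w| ≥ √(M|r|)`); `Φ = (z+p)/n` where `z ≤ 0`.
  `|Φ| ≤ 2`, `z` is increasing; `Ψ = 8Φ + 8C'S` on both parts, glued.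
* DUR : S_DUR.  `z' ≥ M/(4|r|)` as in EXU; on the part `z ≥ 0`, `|r|` is increasing and
  `|r(b)|² ≥ 2∫z ≥ M(b-s)²/(4|r(b)|)`; same for `z ≤ 0`.
* CNT : S_CNT.  At `τ_i` (`i ≤ n`) the label is `a+1` or `a+2` (ecl0), they alternate, and
  `u = r/|r| = ∓ X/|X| = ∓ x`; so `2 ≤ |u(τ_(i+1)) - u(τ_i)| + |x(τ_(i+1)) - x(τ_i)|`; sum.
* EXN (hB : S_BAS) (hP : S_PAIR) (hU : S_EXU) (hD : S_DUR) (hN : S_CNT) : S_EXN.  `[a,b] = [τ0,τn]`,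
  `f = ρ^(3/2)` has `|f'| ≤ (3/2)√(2V)` (near region), DUR gives `b - a ≤ C δ^(3/2) (f(a)+f(b))`, so
  for `δ` small `f ≥ f(a)/2` on `[a,b]` and `b - a ≤ C f(a)`.  EXU with `S(x) = C x/f(a)`;
  `|(X/|X|)'| ≤ |Y|/|X| ≤ C ρ^(-3/2) ≤ 2C/f(a)` (`ν|Y|²/2 = E - μe + P ≤ C/ρ`), `Θ(x) = 2C x/f(a)`; CNT.
* GRP : S_GRP (elementary induction).
* NEAR (hB : S_BAS) (hC : S_CSN) (hE : S_EXN) (hG : S_GRP) : S_NEAR.  `V i = vv (τ i)`,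
  `vv² ≤ V(Eρ+1) ≤ 2V`; `G i` : some pair is close on `[τ_i,τ_(i+1)]`; by `Bas.one` it is the same
  pair on a run (for `4δ ≤ 1/C`).
* FR (hB : S_BAS) : S_FR.  `J' ≥ 2` so `ρ² ≥ ρ(0)² + 2t²`; `ρ' ≤ √(2V)`; `g = J²/ρ - 2ρ` has
  `g' = (J/ρ) W ≥ 0`, `g(0) ≥ -2ρ(0)`, `W = 2U - g/ρ`.
* CSF (hB : S_BAS) (hR : S_RA) (hF : S_FR) : S_CSF.  Where all sides are `≥ δρ`: `W ≤ Cρ(0)/ρ`, so
  `√W/ρ ≤ C √ρ(0) (ρ(0)+t)^(-3/2) ≤ C' Zf'`.  Right angle at `x` (RA).  If all sides are `≥ 2δρ` at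
  `x`: up to `t` or the first time some side is `δρ`, D/ρ and chi/ρ² (from `≥ 4δ²` to `0`) move.
  Otherwise some side is `< 2δρ`, and it either stays `≤ 4δρ` or moves from `2δ` to `4δ` (other
  sides are `≥ δρ` by `Bas.one`).
* EXF (hB : S_BAS) (hP : S_PAIR) (hF : S_FR) (hU : S_EXU) (hN : S_CNT) : S_EXF.  `σ = ρ(0)+t`,
  `|X| ≍ ρ ≍ σ ≥ 1`.  EXU with `S = -Cσ^(-1/2)`.  Direction of `X`: `|cr X Y|' ≤ C/σ`, at `τ0`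
  `|cr X Y| ≤ Cσ(τ0)` (`|Y| ≤ C`), so `|cr X Y|(t) ≤ C√(σ(τ0)σ(t))` and
  `|(X/|X|)'| = |cr X Y|/|X|² ≤ C√σ(τ0) σ^(-3/2) = Θ'`, `Θ = -2C√(σ(τ0)/σ)`; CNT.
* FAR (hB : S_BAS) (hC : S_CSF) (hE : S_EXF) (hG : S_GRP) : S_FAR.  As NEAR with `Zf ∈ [-1,0]`.
* MAIN (hB : S_BAS) (hT : S_SHT) (hR : S_REV) (hS : S_SCL) (hV : S_SPD) (hN : S_NEAR) (hF : S_FAR) : S_MAIN.
  Scale to `E = 1`.  `J` is increasing with one zero `t_m`; `{ρ ≤ 1}` is an interval (`ρ²` convex).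
  Indices with `ρ(τ_i) ≤ 1`: NEAR; those with `τ_i ≥ t_m`, `ρ(τ_i) > 1`: FAR after the time shift by
  the first such `τ_i`; those with `τ_i ≤ t_m`, `ρ > 1`: FAR for the reversed solution.
* WRD : S_WRD.  `ReflTransGen Del w w'` gives `w' <+ w`, hence a sublist of times.
* HYP (hB : S_BAS) : S_HYP.  `Sol` from `IsHyperbolic` (`∑ over erase` = `acc`), `massNorm = rho`,
  `ρ → ∞` as `t → ±∞` (`J' ≥ 2E`), `D/ρ → |s_i - s_j| > 0`.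
-/
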