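import Mathlib

/-!
# MP_877ce7_an: definitions of the problem

The plane is `ℂ`.  `q a t` is the position of body `a : Fin 3` at time `t`.
-/

namespace Pool.Agent.J4H12.TB

open Filter Topology

/-- The mass norm `‖x‖ = (∑ m_a |x_a|²)^(1/2)` of a configuration. -/
noncomputable def massNorm (m : Fin 3 → ℝ) (x : Fin 3 → ℂ) : ℝ := √(∑ a, m a * ‖x a‖ ^ 2)

/-- The total energy at time `t`: kinetic energy minus `∑ m_a m_b / |q_a - q_b|` (the sum is over
the three pairs; the pair opposite to body `a` is `a + 1, a + 2`). -/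
noncomputable def energy (m : Fin 3 → ℝ) (q : Fin 3 → ℝ → ℂ) (t : ℝ) : ℝ :=
  (∑ a, m a * ‖deriv (q a) t‖ ^ 2) / 2
    - ∑ a : Fin 3, m (a + 1) * m (a + 2) / ‖q (a + 2) t - q (a + 1) t‖

/-- `q` is a hyperbolic solution of the planar Newtonian three-body problem with masses `m`:
defined and collision-free for all times, centre of mass at the origin, Newton's equations,
positive energy, and `q(t)/‖q(t)‖` has collision-free limits as `t → ±∞`. -/
structure IsHyperbolic (m : Fin 3 → ℝ) (q : Fin 3 → ℝ → ℂ) : Prop where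
  collisionFree : ∀ t, Function.Injective fun a => q a t
  centre : ∀ t, ∑ a, (m a : ℂ) * q a t = 0
  differentiable : ∀ a, Differentiable ℝ (q a)
  newton : ∀ a t, HasDerivAt (deriv (q a))
    (∑ b ∈ Finset.univ.erase a, ((m b / ‖q b t - q a t‖ ^ 3 : ℝ) : ℂ) * (q b t - q a t)) t
  energyPos : ∃ E : ℝ, 0 < E ∧ ∀ t, energy m q t = E
  future : ∃ s : Fin 3 → ℂ, Function.Injective s ∧
    ∀ a, Tendsto (fun t => q a t / (massNorm m fun b => q b t : ℝ)) atTop (𝓝 (s a))
  past : ∃ s : Fin 3 → ℂ, Function.Injective s ∧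
    ∀ a, Tendsto (fun t => q a t / (massNorm m fun b => q b t : ℝ)) atBot (𝓝 (s a))

/-- There is an eclipse with label `a` at time `t`: body `a` lies strictly between the other two
(bodies `a + 1` and `a + 2`, indices mod 3). -/
def Ecl (q : Fin 3 → ℝ → ℂ) (a : Fin 3) (t : ℝ) : Prop :=
  q a t ∈ openSegment ℝ (q (a + 1) t) (q (a + 2) t)

/-- `w` is the eclipse sequence of `q`: there are finitely many eclipses, and `w` lists their
labels in time order. -/
def IsEclipseSequence (q : Fin 3 → ℝ → ℂ) (w : List (Fin 3)) : Prop :=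
  ∃ τ : List ℝ, τ.Pairwise (· < ·) ∧ (∀ t a, Ecl q a t → t ∈ τ) ∧ List.Forall₂ (Ecl q) w τ

/-- `Del w w'`: the word `w'` is obtained from `w` by deleting one stutter pair `aa`. -/
inductive Del : List (Fin 3) → List (Fin 3) → Prop
  | del (u v : List (Fin 3)) (a : Fin 3) : Del (u ++ a :: a :: v) (u ++ v)

/-- A word without stutters. -/
def IsReduced (w : List (Fin 3)) : Prop :=
  ∀ (u v : List (Fin 3)) (a : Fin 3), w ≠ u ++ a :: a :: v

/-- `w'` is the reduced eclipse sequence of `q`: `q` has finitely many eclipses, and `w'` is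
obtained from its eclipse sequence by deleting stutter pairs until none remain. -/
def IsReducedEclipseSequence (q : Fin 3 → ℝ → ℂ) (w' : List (Fin 3)) : Prop :=
  ∃ w, IsEclipseSequence q w ∧ Relation.ReflTransGen Del w w' ∧ IsReduced w'

end Pool.Agent.J4H12.TB
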