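import Pool.Agent.J4H12.TB.Problem

/-!
# Project TB: exact statements

All constants depend only on the masses (and on the previously quantified constants).
-/

namespace Pool.Agent.J4H12.TB

open Filter Topology Set

noncomputable section

/-- dot product -/
def dt (z w : ℂ) : ℝ := z.re * w.re + z.im * w.im

/-- cross product -/
def cr (z w : ℂ) : ℝ := z.re * w.im - z.im * w.re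

/-- the side opposite to body `a` -/
def D (q : Fin 3 → ℝ → ℂ) (a : Fin 3) (t : ℝ) : ℝ := ‖q (a + 2) t - q (a + 1) t‖

def U (m : Fin 3 → ℝ) (q : Fin 3 → ℝ → ℂ) (t : ℝ) : ℝ :=
  ∑ a : Fin 3, m (a + 1) * m (a + 2) / D q a t

def Kin (m : Fin 3 → ℝ) (v : Fin 3 → ℝ → ℂ) (t : ℝ) : ℝ := (∑ a, m a * ‖v a t‖ ^ 2) / 2

def rho (m : Fin 3 → ℝ) (q : Fin 3 → ℝ → ℂ) (t : ℝ) : ℝ := √(∑ a, m a * ‖q a t‖ ^ 2)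

/-- `J = ρ ρ'` -/
def J (m : Fin 3 → ℝ) (q v : Fin 3 → ℝ → ℂ) (t : ℝ) : ℝ := ∑ a, m a * dt (q a t) (v a t)

/-- `W = 2K - ρ'^2` -/
def W (m : Fin 3 → ℝ) (q v : Fin 3 → ℝ → ℂ) (t : ℝ) : ℝ :=
  2 * Kin m v t - (J m q v t / rho m q t) ^ 2

/-- McGehee's `v = √ρ ρ'` -/
def vv (m : Fin 3 → ℝ) (q v : Fin 3 → ℝ → ℂ) (t : ℝ) : ℝ := J m q v t / √(rho m q t)

def psi (q : Fin 3 → ℝ → ℂ) (a : Fin 3) (t : ℝ) : ℝ :=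
  dt (q (a + 1) t - q a t) (q (a + 2) t - q a t)

def chi (q : Fin 3 → ℝ → ℂ) (t : ℝ) : ℝ := cr (q 1 t - q 0 t) (q 2 t - q 0 t)

def acc (m : Fin 3 → ℝ) (q : Fin 3 → ℝ → ℂ) (a : Fin 3) (t : ℝ) : ℂ :=
  ((m (a + 1) / ‖q (a + 1) t - q a t‖ ^ 3 : ℝ) : ℂ) * (q (a + 1) t - q a t)
  + ((m (a + 2) / ‖q (a + 2) t - q a t‖ ^ 3 : ℝ) : ℂ) * (q (a + 2) t - q a t)

/-- collision-free solution with positive energy `E` and centre of mass at `0` -/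
structure Sol (m : Fin 3 → ℝ) (E : ℝ) (q v : Fin 3 → ℝ → ℂ) : Prop where
  mpos : ∀ a, 0 < m a
  Epos : 0 < E
  ne : ∀ t a b, a ≠ b → q a t ≠ q b t
  dq : ∀ a t, HasDerivAt (q a) (v a t) t
  dv : ∀ a t, HasDerivAt (v a) (acc m q a t) t
  cm : ∀ t, ∑ a, (m a : ℂ) * q a t = 0
  en : ∀ t, Kin m v t - U m q t = E

/-- all sides are unbounded in the future and in the past -/
def Unb (q : Fin 3 → ℝ → ℂ) : Prop :=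
  ∀ a, (∀ T B : ℝ, ∃ t, T ≤ t ∧ B < D q a t) ∧ (∀ T B : ℝ, ∃ t, t ≤ T ∧ B < D q a t)

/-- the speed bound `ρ'^2 ≤ V (E + 1/ρ)` -/
def Spd (V : ℝ) (m : Fin 3 → ℝ) (E : ℝ) (q v : Fin 3 → ℝ → ℂ) : Prop :=
  ∀ t, (J m q v t / rho m q t) ^ 2 ≤ V * (E + 1 / rho m q t)

/-- an alternating chain of `n + 1` eclipses -/
def Alt (q : Fin 3 → ℝ → ℂ) (n : ℕ) (τ : ℕ → ℝ) (lab : ℕ → Fin 3) : Prop :=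
  (∀ i < n, τ i < τ (i + 1)) ∧ (∀ i ≤ n, Ecl q (lab i) (τ i)) ∧ (∀ i < n, lab i ≠ lab (i + 1))

/-- `E ρ ≤ 1` on `[s, t]` -/
def Near (m : Fin 3 → ℝ) (E : ℝ) (q : Fin 3 → ℝ → ℂ) (s t : ℝ) : Prop :=
  ∀ x ∈ Icc s t, E * rho m q x ≤ 1

/-- pair opposite to `p` is `4δ`-close on `[s, t]` -/
def Close (m : Fin 3 → ℝ) (q : Fin 3 → ℝ → ℂ) (δ : ℝ) (p : Fin 3) (s t : ℝ) : Prop :=
  ∀ x ∈ Icc s t, D q p x ≤ 4 * δ * rho m q x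

/-! ### base facts -/

structure Bas (m : Fin 3 → ℝ) (C E : ℝ) (q v : Fin 3 → ℝ → ℂ) : Prop where
  rpos : ∀ t, 0 < rho m q t
  Dpos : ∀ a t, 0 < D q a t
  U0 : ∀ t, 0 < U m q t
  W0 : ∀ t, 0 ≤ W m q v t
  WU : ∀ t, W m q v t = 2 * E + 2 * U m q t - (J m q v t / rho m q t) ^ 2
  sq : ∀ t, (∑ a, m a) * rho m q t ^ 2 = ∑ a : Fin 3, m (a + 1) * m (a + 2) * D q a t ^ 2
  Dle : ∀ a t, D q a t ≤ C * rho m q t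
  one : ∀ t a b, D q a t ≤ rho m q t / C → D q b t ≤ rho m q t / C → a = b
  drho : ∀ t, HasDerivAt (rho m q) (J m q v t / rho m q t) t
  dsq : ∀ t, HasDerivAt (fun t => rho m q t ^ 2) (2 * J m q v t) t
  dJ : ∀ t, HasDerivAt (J m q v) (2 * E + U m q t) t
  dvv : ∀ t, HasDerivAt (vv m q v) ((W m q v t / 2 + E) / √(rho m q t)) t
  dD : ∀ a t, ∃ d, HasDerivAt (fun t => D q a t / rho m q t) d t ∧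
    |d| ≤ C * (√(W m q v t) / rho m q t)
  dpsi : ∀ a t, ∃ d, HasDerivAt (fun t => psi q a t / rho m q t ^ 2) d t ∧
    |d| ≤ C * (√(W m q v t) / rho m q t)
  dchi : ∀ t, ∃ d, HasDerivAt (fun t => chi q t / rho m q t ^ 2) d t ∧
    |d| ≤ C * (√(W m q v t) / rho m q t)

/-- (BAS) -/
def S_BAS : Prop := ∀ m : Fin 3 → ℝ, (∀ a, 0 < m a) → ∃ C : ℝ, 1 ≤ C ∧
  ∀ (E : ℝ) (q v : Fin 3 → ℝ → ℂ), Sol m E q v → Bas m C E q v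

/-! ### invariance -/

/-- (SHT) time shift -/
def S_SHT : Prop := ∀ (m : Fin 3 → ℝ) (E s : ℝ) (q v : Fin 3 → ℝ → ℂ), Sol m E q v →
  Sol m E (fun a t => q a (t + s)) (fun a t => v a (t + s))

/-- (REV) time reversal -/
def S_REV : Prop := ∀ (m : Fin 3 → ℝ) (E : ℝ) (q v : Fin 3 → ℝ → ℂ), Sol m E q v →
  Sol m E (fun a t => q a (-t)) (fun a t => - v a (-t)) ∧
  ∀ t, J m (fun a t => q a (-t)) (fun a t => - v a (-t)) t = - J m q v (-t)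

/-- (SCL) scaling -/
def S_SCL : Prop := ∀ (m : Fin 3 → ℝ) (E k : ℝ) (q v : Fin 3 → ℝ → ℂ), Sol m E q v → 0 < k →
  Sol m (k ^ 2 * E) (fun a t => ((k ^ 2)⁻¹ : ℝ) * q a (k ^ 3 * t)) (fun a t => (k : ℂ) * v a (k ^ 3 * t)) ∧
  ∀ t, rho m (fun a t => ((k ^ 2)⁻¹ : ℝ) * q a (k ^ 3 * t)) t = (k ^ 2)⁻¹ * rho m q (k ^ 3 * t) ∧
    J m (fun a t => ((k ^ 2)⁻¹ : ℝ) * q a (k ^ 3 * t)) (fun a t => (k : ℂ) * v a (k ^ 3 * t)) t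
      = k⁻¹ * J m q v (k ^ 3 * t) ∧
    vv m (fun a t => ((k ^ 2)⁻¹ : ℝ) * q a (k ^ 3 * t)) (fun a t => (k : ℂ) * v a (k ^ 3 * t)) t
      = vv m q v (k ^ 3 * t) ∧
    (∀ a, D (fun a t => ((k ^ 2)⁻¹ : ℝ) * q a (k ^ 3 * t)) a t = (k ^ 2)⁻¹ * D q a (k ^ 3 * t)) ∧
    (∀ a, psi (fun a t => ((k ^ 2)⁻¹ : ℝ) * q a (k ^ 3 * t)) a t
      = ((k ^ 2)⁻¹) ^ 2 * psi q a (k ^ 3 * t)) ∧
    chi (fun a t => ((k ^ 2)⁻¹ : ℝ) * q a (k ^ 3 * t)) t = ((k ^ 2)⁻¹) ^ 2 * chi q (k ^ 3 * t) ∧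
    (∀ a, Ecl (fun a t => ((k ^ 2)⁻¹ : ℝ) * q a (k ^ 3 * t)) a t ↔ Ecl q a (k ^ 3 * t))

/-- (CYC) cyclic renumbering -/
def S_CYC : Prop := ∀ (m : Fin 3 → ℝ) (E : ℝ) (q v : Fin 3 → ℝ → ℂ) (c : Fin 3), Sol m E q v →
  Sol (fun a => m (a + c)) E (fun a => q (a + c)) (fun a => v (a + c)) ∧
  ∀ t, rho (fun a => m (a + c)) (fun a => q (a + c)) t = rho m q t ∧
    J (fun a => m (a + c)) (fun a => q (a + c)) (fun a => v (a + c)) t = J m q v t ∧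
    W (fun a => m (a + c)) (fun a => q (a + c)) (fun a => v (a + c)) t = W m q v t ∧
    vv (fun a => m (a + c)) (fun a => q (a + c)) (fun a => v (a + c)) t = vv m q v t ∧
    (∀ a, D (fun a => q (a + c)) a t = D q (a + c) t) ∧
    (∀ a, psi (fun a => q (a + c)) a t = psi q (a + c) t) ∧
    chi (fun a => q (a + c)) t = chi q t ∧
    (∀ a, Ecl (fun a => q (a + c)) a t ↔ Ecl q (a + c) t)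

/-! ### the 2 + 1 splitting -/

/-- abstract perturbed Kepler problem `r` with an outer body `X` -/
structure Two (μ ν M C E : ℝ) (r w X Y F G : ℝ → ℂ) (P : ℝ → ℝ) : Prop where
  μ0 : 0 < μ
  ν0 : 0 < ν
  M0 : 0 < M
  C0 : 0 < C
  E0 : 0 < E
  r0 : ∀ t, r t ≠ 0
  dr : ∀ t, HasDerivAt r (w t) t
  dw : ∀ t, HasDerivAt w (-((M / ‖r t‖ ^ 3 : ℝ) : ℂ) * r t + F t) t
  dX : ∀ t, HasDerivAt X (Y t) t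
  dY : ∀ t, HasDerivAt Y (G t) t
  en : ∀ t, μ * (‖w t‖ ^ 2 / 2 - M / ‖r t‖) + ν * ‖Y t‖ ^ 2 / 2 - P t = E
  P0 : ∀ t, 0 ≤ P t
  far : ∀ t, 2 * ‖r t‖ ≤ ‖X t‖ →
    P t ≤ C / ‖X t‖ ∧ ‖F t‖ ≤ C * ‖r t‖ / ‖X t‖ ^ 3 ∧ ‖G t‖ ≤ C / ‖X t‖ ^ 2

/-- Kepler energy of the pair -/
def eps (M : ℝ) (r w : ℝ → ℂ) (t : ℝ) : ℝ := ‖w t‖ ^ 2 / 2 - M / ‖r t‖

/-- (JAC) Jacobi coordinates for the pair 0, 1 -/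
def S_JAC : Prop := ∀ m : Fin 3 → ℝ, (∀ a, 0 < m a) → ∃ μ ν M C : ℝ,
  ∀ (E : ℝ) (q v : Fin 3 → ℝ → ℂ), Sol m E q v → ∃ (r w X Y F G : ℝ → ℂ) (P : ℝ → ℝ),
    Two μ ν M C E r w X Y F G P ∧
    (∀ t, r t = q 1 t - q 0 t) ∧ (∀ t, w t = v 1 t - v 0 t) ∧
    (∀ t, X t = ((m 0 + m 1 + m 2) / (m 0 + m 1) : ℝ) * q 2 t) ∧
    (∀ t, rho m q t ^ 2 = μ * ‖r t‖ ^ 2 + ν * ‖X t‖ ^ 2) ∧
    (∀ t, J m q v t = μ * dt (r t) (w t) + ν * dt (X t) (Y t))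

/-- (ESC) a tight pair cannot be unbounded in both time directions -/
def S_ESC : Prop := ∀ μ ν M C : ℝ, 0 < μ → 0 < ν → 0 < M → 0 < C → ∃ L : ℝ, 0 < L ∧
  ∀ (E : ℝ) (r w X Y F G : ℝ → ℂ) (P : ℝ → ℝ), Two μ ν M C E r w X Y F G P →
    (∀ T B : ℝ, ∃ t, T ≤ t ∧ B < ‖r t‖) → (∀ T B : ℝ, ∃ t, t ≤ T ∧ B < ‖r t‖) →
    ∀ t, -L ≤ eps M r w t * ‖X t‖

/-- data attached to the pair opposite to `a` -/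
structure Pair (m : Fin 3 → ℝ) (a : Fin 3) (μ ν M C L κ c : ℝ) (E : ℝ) (q v : Fin 3 → ℝ → ℂ)
    (r w X Y F G : ℝ → ℂ) (P : ℝ → ℝ) : Prop where
  two : Two μ ν M C E r w X Y F G P
  κ0 : 0 < κ
  c0 : 0 < c
  L0 : 0 < L
  hr : ∀ t, ‖r t‖ = D q a t
  esc : ∀ t, -L ≤ eps M r w t * ‖X t‖
  sq : ∀ t, rho m q t ^ 2 = μ * ‖r t‖ ^ 2 + ν * ‖X t‖ ^ 2
  hJ : ∀ t, J m q v t = μ * dt (r t) (w t) + ν * dt (X t) (Y t)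
  Xlo : ∀ t, D q a t ≤ κ * rho m q t → c * rho m q t ≤ ‖X t‖
  Xup : ∀ t, c * ‖X t‖ ≤ rho m q t
  two' : ∀ t, D q a t ≤ κ * rho m q t → 2 * ‖r t‖ ≤ ‖X t‖
  ecl0 : ∀ t, D q a t ≤ κ * rho m q t → ¬ Ecl q a t
  ecl1 : ∀ t, Ecl q (a + 1) t → r t / ‖r t‖ = - (X t / ‖X t‖)
  ecl2 : ∀ t, Ecl q (a + 2) t → r t / ‖r t‖ = X t / ‖X t‖

/-- (PAIR) -/
def S_PAIR : Prop := ∀ m : Fin 3 → ℝ, (∀ a, 0 < m a) → ∀ a : Fin 3, ∃ μ ν M C L κ c : ℝ,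
  ∀ (E : ℝ) (q v : Fin 3 → ℝ → ℂ), Sol m E q v → Unb q →
    ∃ (r w X Y F G : ℝ → ℂ) (P : ℝ → ℝ), Pair m a μ ν M C L κ c E q v r w X Y F G P

/-- (SPD) -/
def S_SPD : Prop := ∀ m : Fin 3 → ℝ, (∀ a, 0 < m a) → ∃ V : ℝ, 0 < V ∧
  ∀ (E : ℝ) (q v : Fin 3 → ℝ → ℂ), Sol m E q v → Unb q → Spd V m E q v

/-! ### cost of a label change, near region -/

/-- (RA) a right angle between two eclipses with different labels -/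
def S_RA : Prop := ∀ (m : Fin 3 → ℝ) (E : ℝ) (q v : Fin 3 → ℝ → ℂ), Sol m E q v →
  (∀ a t, Ecl q a t → chi q t = 0) ∧
  ∀ (s t : ℝ) (a b : Fin 3), s ≤ t → a ≠ b → Ecl q a s → Ecl q b t →
    ∃ x ∈ Icc s t, psi q a x = 0

def Hf (m : Fin 3 → ℝ) (q v : Fin 3 → ℝ → ℂ) (t : ℝ) : ℝ :=
  dt (v 1 t - v 0 t) (q 2 t - q 0 t) + dt (q 1 t - q 0 t) (v 2 t - v 0 t)
    - 2 * (J m q v t / rho m q t ^ 2) * psi q 0 t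

/-- (PSI) force at a right angle -/
def S_PSI : Prop := ∀ m : Fin 3 → ℝ, (∀ a, 0 < m a) → ∀ δ V : ℝ, 0 < δ → 0 < V →
  ∃ κ c C : ℝ, 0 < κ ∧ 0 < c ∧ 0 < C ∧
  ∀ (E : ℝ) (q v : Fin 3 → ℝ → ℂ), Sol m E q v → Spd V m E q v →
  ∀ t, E * rho m q t ≤ 1 → (∀ p, δ * rho m q t ≤ D q p t) →
    |psi q 0 t| ≤ κ * rho m q t ^ 2 →
    |Hf m q v t| ≤ C * rho m q t * √(W m q v t) ∧
    ∃ h, HasDerivAt (Hf m q v) h t ∧ h ≤ - c / rho m q t + C * W m q v t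

/-- (STN) staying near a right angle costs `v` -/
def S_STN : Prop := ∀ m : Fin 3 → ℝ, (∀ a, 0 < m a) → ∀ δ V : ℝ, 0 < δ → 0 < V →
  ∃ c : ℝ, 0 < c ∧ ∀ (E : ℝ) (q v : Fin 3 → ℝ → ℂ), Sol m E q v → Spd V m E q v →
  ∀ s t : ℝ, s ≤ t → Near m E q s t → ∀ a, psi q a s = 0 →
    (∀ p, 2 * δ * rho m q s ≤ D q p s) → chi q t = 0 → c ≤ vv m q v t - vv m q v s

/-- (CRN) crossing from `2δ` to `4δ` costs `v` -/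
def S_CRN : Prop := ∀ m : Fin 3 → ℝ, (∀ a, 0 < m a) → ∀ V : ℝ, 0 < V →
  ∃ δ₀ : ℝ, 0 < δ₀ ∧ ∀ δ : ℝ, 0 < δ → δ ≤ δ₀ →
  ∃ c : ℝ, 0 < c ∧ ∀ (E : ℝ) (q v : Fin 3 → ℝ → ℂ), Sol m E q v → Spd V m E q v →
  ∀ s t : ℝ, s ≤ t → Near m E q s t → ∀ p, ∀ x ∈ Icc s t, ∀ y ∈ Icc s t,
    D q p x ≤ 2 * δ * rho m q x → 4 * δ * rho m q y ≤ D q p y →
    c ≤ vv m q v t - vv m q v s

/-- (CSN) -/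
def S_CSN : Prop := ∀ m : Fin 3 → ℝ, (∀ a, 0 < m a) → ∀ V : ℝ, 0 < V →
  ∃ δ₀ : ℝ, 0 < δ₀ ∧ ∀ δ : ℝ, 0 < δ → δ ≤ δ₀ →
  ∃ c : ℝ, 0 < c ∧ ∀ (E : ℝ) (q v : Fin 3 → ℝ → ℂ), Sol m E q v → Spd V m E q v →
  ∀ s t : ℝ, s ≤ t → Near m E q s t → ∀ a b : Fin 3, a ≠ b → Ecl q a s → Ecl q b t →
    (∃ p, Close m q δ p s t) ∨ c ≤ vv m q v t - vv m q v s

/-! ### excursions: close pair -/

/-- (EXU) variation of the direction `r/|r|` -/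
def S_EXU : Prop := ∀ μ ν M C L : ℝ, 0 < μ → 0 < ν → 0 < M → 0 < C → 0 < L →
  ∃ κ K : ℝ, 0 < κ ∧ 0 < K ∧
  ∀ (E : ℝ) (r w X Y F G : ℝ → ℂ) (P : ℝ → ℝ), Two μ ν M C E r w X Y F G P →
  ∀ a b : ℝ, a ≤ b → (∀ x ∈ Icc a b, ‖r x‖ ≤ κ * ‖X x‖ ∧ -L ≤ eps M r w x * ‖X x‖) →
  ∀ S S' : ℝ → ℝ, (∀ x ∈ Icc a b, HasDerivAt S (S' x) x ∧
    ‖r x‖ * √‖r x‖ / ‖X x‖ ^ 3 ≤ S' x) →
  ∃ Ψ : ℝ → ℝ, Ψ b - Ψ a ≤ K + K * (S b - S a) ∧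
    ∀ x y, a ≤ x → x ≤ y → y ≤ b → ‖r y / ‖r y‖ - r x / ‖r x‖‖ ≤ Ψ y - Ψ x

/-- (DUR) duration of an excursion -/
def S_DUR : Prop := ∀ μ ν M C L : ℝ, 0 < μ → 0 < ν → 0 < M → 0 < C → 0 < L →
  ∃ κ K : ℝ, 0 < κ ∧ 0 < K ∧
  ∀ (E : ℝ) (r w X Y F G : ℝ → ℂ) (P : ℝ → ℝ), Two μ ν M C E r w X Y F G P →
  ∀ a b : ℝ, a ≤ b → (∀ x ∈ Icc a b, ‖r x‖ ≤ κ * ‖X x‖ ∧ -L ≤ eps M r w x * ‖X x‖) →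
  b - a ≤ K * (‖r a‖ * √‖r a‖ + ‖r b‖ * √‖r b‖)

/-- (CNT) counting label changes by total variation -/
def S_CNT : Prop := ∀ (m : Fin 3 → ℝ) (a : Fin 3) (μ ν M C L κ c : ℝ) (E : ℝ)
  (q v : Fin 3 → ℝ → ℂ) (r w X Y F G : ℝ → ℂ) (P : ℝ → ℝ),
  Pair m a μ ν M C L κ c E q v r w X Y F G P →
  ∀ (n : ℕ) (τ : ℕ → ℝ) (lab : ℕ → Fin 3), Alt q n τ lab →
  (∀ x ∈ Icc (τ 0) (τ n), D q a x ≤ κ * rho m q x) →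
  ∀ Ψ Θ : ℝ → ℝ,
  (∀ x y, τ 0 ≤ x → x ≤ y → y ≤ τ n → ‖r y / ‖r y‖ - r x / ‖r x‖‖ ≤ Ψ y - Ψ x) →
  (∀ x y, τ 0 ≤ x → x ≤ y → y ≤ τ n → ‖X y / ‖X y‖ - X x / ‖X x‖‖ ≤ Θ y - Θ x) →
  2 * (n : ℝ) ≤ (Ψ (τ n) - Ψ (τ 0)) + (Θ (τ n) - Θ (τ 0))

/-- (EXN) -/
def S_EXN : Prop := ∀ m : Fin 3 → ℝ, (∀ a, 0 < m a) → ∀ V : ℝ, 0 < V →
  ∃ δ₀ : ℝ, 0 < δ₀ ∧ ∀ δ : ℝ, 0 < δ → δ ≤ δ₀ →
  ∃ K : ℕ, ∀ (E : ℝ) (q v : Fin 3 → ℝ → ℂ), Sol m E q v → Unb q → Spd V m E q v →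
  ∀ (n : ℕ) (τ : ℕ → ℝ) (lab : ℕ → Fin 3), Alt q n τ lab → Near m E q (τ 0) (τ n) →
  ∀ p, Close m q δ p (τ 0) (τ n) → n ≤ K

/-! ### grouping -/

/-- (GRP) -/
def S_GRP : Prop := ∀ (n K : ℕ) (V : ℕ → ℝ) (c T : ℝ) (G : ℕ → Prop), 0 < c →
  (∀ i < n, V i ≤ V (i + 1)) → V n - V 0 ≤ T →
  (∀ i < n, G i ∨ c ≤ V (i + 1) - V i) →
  (∀ i j, i ≤ j → j ≤ n → (∀ k, i ≤ k → k < j → G k) → j - i ≤ K) →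
  (n : ℝ) ≤ (T / c + 1) * (K + 1)

/-- (NEAR) -/
def S_NEAR : Prop := ∀ m : Fin 3 → ℝ, (∀ a, 0 < m a) → ∀ V : ℝ, 0 < V →
  ∃ N : ℕ, ∀ (E : ℝ) (q v : Fin 3 → ℝ → ℂ), Sol m E q v → Unb q → Spd V m E q v →
  ∀ (n : ℕ) (τ : ℕ → ℝ) (lab : ℕ → Fin 3), Alt q n τ lab → Near m E q (τ 0) (τ n) → n ≤ N

/-! ### far region (energy normalised to 1, region starts at time 0) -/

/-- (FR) -/
def S_FR : Prop := ∀ m : Fin 3 → ℝ, (∀ a, 0 < m a) → ∀ V : ℝ, 0 < V →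
  ∃ C : ℝ, 1 ≤ C ∧ ∀ (q v : Fin 3 → ℝ → ℂ), Sol m 1 q v → Spd V m 1 q v →
  0 ≤ J m q v 0 → 1 ≤ rho m q 0 → ∀ t, 0 ≤ t →
    rho m q 0 + t ≤ C * rho m q t ∧ rho m q t ≤ C * (rho m q 0 + t) ∧
    W m q v t ≤ 2 * U m q t + 2 * rho m q 0 / rho m q t

/-- the angle clock of the far region -/
def Zf (r t : ℝ) : ℝ := -√(r / (r + t))

/-- (CSF) -/
def S_CSF : Prop := ∀ m : Fin 3 → ℝ, (∀ a, 0 < m a) → ∀ V : ℝ, 0 < V →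
  ∃ δ₀ : ℝ, 0 < δ₀ ∧ ∀ δ : ℝ, 0 < δ → δ ≤ δ₀ →
  ∃ c : ℝ, 0 < c ∧ ∀ (q v : Fin 3 → ℝ → ℂ), Sol m 1 q v → Spd V m 1 q v →
  0 ≤ J m q v 0 → 1 ≤ rho m q 0 →
  ∀ s t : ℝ, 0 ≤ s → s ≤ t → ∀ a b : Fin 3, a ≠ b → Ecl q a s → Ecl q b t →
    (∃ p, Close m q δ p s t) ∨ c ≤ Zf (rho m q 0) t - Zf (rho m q 0) s

/-- (EXF) -/
def S_EXF : Prop := ∀ m : Fin 3 → ℝ, (∀ a, 0 < m a) → ∀ V : ℝ, 0 < V →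
  ∃ δ₀ : ℝ, 0 < δ₀ ∧ ∀ δ : ℝ, 0 < δ → δ ≤ δ₀ →
  ∃ K : ℕ, ∀ (q v : Fin 3 → ℝ → ℂ), Sol m 1 q v → Unb q → Spd V m 1 q v →
  0 ≤ J m q v 0 → 1 ≤ rho m q 0 →
  ∀ (n : ℕ) (τ : ℕ → ℝ) (lab : ℕ → Fin 3), Alt q n τ lab → 0 ≤ τ 0 →
  ∀ p, Close m q δ p (τ 0) (τ n) → n ≤ K

/-- (FAR) -/
def S_FAR : Prop := ∀ m : Fin 3 → ℝ, (∀ a, 0 < m a) → ∀ V : ℝ, 0 < V →
  ∃ N : ℕ, ∀ (q v : Fin 3 → ℝ → ℂ), Sol m 1 q v → Unb q → Spd V m 1 q v →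
  0 ≤ J m q v 0 → 1 ≤ rho m q 0 →
  ∀ (n : ℕ) (τ : ℕ → ℝ) (lab : ℕ → Fin 3), Alt q n τ lab → 0 ≤ τ 0 → n ≤ N

/-! ### conclusion -/

/-- (MAIN) -/
def S_MAIN : Prop := ∀ m : Fin 3 → ℝ, (∀ a, 0 < m a) →
  ∃ N : ℕ, ∀ (E : ℝ) (q v : Fin 3 → ℝ → ℂ), Sol m E q v → Unb q →
  ∀ (n : ℕ) (τ : ℕ → ℝ) (lab : ℕ → Fin 3), Alt q n τ lab → n ≤ N

/-- (WRD) words -/
def S_WRD : Prop := ∀ (q : Fin 3 → ℝ → ℂ) (w : List (Fin 3)), IsReducedEclipseSequence q w →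
  w ≠ [] → ∃ (τ : ℕ → ℝ) (lab : ℕ → Fin 3), Alt q (w.length - 1) τ lab

/-- (HYP) -/
def S_HYP : Prop := ∀ (m : Fin 3 → ℝ) (q : Fin 3 → ℝ → ℂ), (∀ a, 0 < m a) → IsHyperbolic m q →
  ∃ E : ℝ, Sol m E q (fun a => deriv (q a)) ∧ Unb q

end

end Pool.Agent.J4H12.TB
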